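import Pool.Agent.W23.KT.Defs

set_option autoImplicit false

/-!
Roots of a product of linear forms modulo a squarefree number (helper721).
-/

namespace Pool.Agent.W721.KT

open Finset
open Pool.Agent.W23.SG
open Pool.Agent.W23.KT

lemma kw_one (k : ℕ) : kw k 1 = 1 := by simp [kw]

lemma kw_prime (k p : ℕ) (hp : p.Prime) : kw k p = k := by
  simp [kw, Nat.Prime.primeFactors hp]

lemma kw_mul (k a b : ℕ) (h : Nat.Coprime a b) : kw k (a * b) = kw k a * kw k b := by
  unfold kw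
  rw [h.primeFactors_mul, card_union_of_disjoint h.disjoint_primeFactors, pow_add]

/-- one prime -/
lemma root_prime (S : Finset (ℤ × ℕ)) (p : ℕ) (hp : p.Prime) (hg : gp S p) :
    ∃ Ω : Finset ℕ, Ω.card = S.card ∧ (∀ s ∈ Ω, s < p) ∧
      ∀ n : ℤ, (p : ℤ) ∣ Fp S n ↔ ∃ s ∈ Ω, (p : ℤ) ∣ n - s := by
  classical
  haveI : Fact p.Prime := ⟨hp⟩
  set r : ℤ × ℕ → ℕ := fun L => (-(L.1 : ZMod p) * (L.2 : ZMod p)⁻¹).val with hr
  have hb : ∀ L ∈ S, (L.2 : ZMod p) ≠ 0 := by
    intro L hL h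
    exact hg.1 L hL ((ZMod.natCast_eq_zero_iff L.2 p).1 h)
  have hroot : ∀ L ∈ S, ∀ n : ℤ, (p : ℤ) ∣ lf L n ↔ (p : ℤ) ∣ n - (r L : ℤ) := by
    intro L hL n
    rw [← ZMod.intCast_zmod_eq_zero_iff_dvd, ← ZMod.intCast_zmod_eq_zero_iff_dvd]
    have h1 : ((r L : ℕ) : ZMod p) = -(L.1 : ZMod p) * (L.2 : ZMod p)⁻¹ := by
      rw [hr]; exact ZMod.natCast_zmod_val _
    unfold lf
    push_cast
    rw [h1]
    have h2 := hb L hL
    constructor
    · intro h
      have h3 : (n : ZMod p) * L.2 = -L.1 := by linear_combination h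
      have h4 : (n : ZMod p) = -(L.1 : ZMod p) * (L.2 : ZMod p)⁻¹ := by
        rw [← h3, mul_assoc, mul_inv_cancel₀ h2, mul_one]
      rw [h4, sub_self]
    · intro h
      have h3 : (n : ZMod p) = -(L.1 : ZMod p) * (L.2 : ZMod p)⁻¹ := sub_eq_zero.1 h
      rw [h3]
      have h4 : (L.2 : ZMod p) * (-(L.1 : ZMod p) * (L.2 : ZMod p)⁻¹) =
          -(L.1 : ZMod p) * ((L.2 : ZMod p) * (L.2 : ZMod p)⁻¹) := by ring
      rw [h4, mul_inv_cancel₀ h2]
      ring
  refine ⟨S.image r, ?_, ?_, ?_⟩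
  · apply card_image_of_injOn
    intro L hL L' hL' heq
    by_contra hne
    apply hg.2 L hL L' hL' hne
    rw [← ZMod.intCast_zmod_eq_zero_iff_dvd]
    have h1 : -(L.1 : ZMod p) * (L.2 : ZMod p)⁻¹ = -(L'.1 : ZMod p) * (L'.2 : ZMod p)⁻¹ :=
      ZMod.val_injective p heq
    have h2 := hb L hL
    have h3 := hb L' hL'
    push_cast
    have h4 : (L.1 : ZMod p) * L'.2 - L'.1 * L.2 =
        (-(L'.1 : ZMod p) * (L'.2 : ZMod p)⁻¹ - -(L.1 : ZMod p) * (L.2 : ZMod p)⁻¹) *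
          (L.2 * L'.2) := by
      have e1 : (-(L'.1 : ZMod p) * (L'.2 : ZMod p)⁻¹ - -(L.1 : ZMod p) * (L.2 : ZMod p)⁻¹) *
          (L.2 * L'.2) = -(L'.1 : ZMod p) * L.2 * ((L'.2 : ZMod p) * (L'.2 : ZMod p)⁻¹) +
          (L.1 : ZMod p) * L'.2 * ((L.2 : ZMod p) * (L.2 : ZMod p)⁻¹) := by ring
      rw [e1, mul_inv_cancel₀ h2, mul_inv_cancel₀ h3]
      ring
    rw [h4, h1, sub_self, zero_mul]
  · intro s hs
    rw [mem_image] at hs
    obtain ⟨L, _, rfl⟩ := hs
    exact ZMod.val_lt _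
  · intro n
    unfold Fp
    rw [Prime.dvd_finset_prod_iff (Nat.prime_iff_prime_int.1 hp)]
    constructor
    · rintro ⟨L, hL, h⟩
      exact ⟨r L, mem_image_of_mem _ hL, (hroot L hL n).1 h⟩
    · rintro ⟨s, hs, h⟩
      rw [mem_image] at hs
      obtain ⟨L, hL, rfl⟩ := hs
      exact ⟨L, hL, (hroot L hL n).2 h⟩

theorem RSK : St_RSK := by
  classical
  intro k S hS d
  induction d using Nat.strong_induction_on with
  | _ d ih =>
    intro hd hsq hgp
    rcases Nat.eq_or_lt_of_le hd with h1 | h1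
    · subst h1
      refine ⟨{0}, by rw [kw_one]; simp, by simp, fun n => ?_⟩
      constructor
      · intro _; exact ⟨0, by simp, by simp⟩
      · intro _; simp
    · set p := d.minFac with hp
      have hpp : p.Prime := Nat.minFac_prime (by omega)
      obtain ⟨e, he⟩ : p ∣ d := Nat.minFac_dvd d
      have hcop : Nat.Coprime p e := by
        rw [he] at hsq
        exact Nat.coprime_of_squarefree_mul hsq
      have he0 : 1 ≤ e := by
        rcases Nat.eq_zero_or_pos e with h | h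
        · rw [h, mul_zero] at he; omega
        · exact h
      have hed : e < d := by
        rw [he]
        have := hpp.two_le
        nlinarith
      have hesq : Squarefree e := by
        rw [he] at hsq
        exact hsq.of_mul_right
      obtain ⟨Ω, hΩ1, hΩ2, hΩ3⟩ := ih e hed he0 hesq (fun q hq hqe =>
        hgp q hq (he ▸ Dvd.dvd.mul_left hqe p))
      obtain ⟨Θ, hΘ1, hΘ2, hΘ3⟩ := root_prime S p hpp (hgp p hpp (Nat.minFac_dvd d))
      set g : ℕ × ℕ → ℕ := fun x => (Nat.chineseRemainder hcop x.1 x.2 : ℕ) with hg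
      have g1 : ∀ x : ℕ × ℕ, g x ≡ x.1 [MOD p] := fun x => (Nat.chineseRemainder hcop x.1 x.2).2.1
      have g2 : ∀ x : ℕ × ℕ, g x ≡ x.2 [MOD e] := fun x => (Nat.chineseRemainder hcop x.1 x.2).2.2
      have hdv : ∀ (m : ℕ) (a b : ℕ) (n : ℤ), a ≡ b [MOD m] → ((m : ℤ) ∣ n - a ↔ (m : ℤ) ∣ n - b) := by
        intro m a b n hab
        have h2 : (m : ℤ) ∣ (b : ℤ) - a := (Nat.modEq_iff_dvd).1 hab
        have h3 : n - (a : ℤ) = (n - b) + (b - a) := by ring
        rw [h3]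
        exact (Int.dvd_add_left h2)
      refine ⟨(Θ ×ˢ Ω).image g, ?_, ?_, ?_⟩
      · rw [card_image_of_injOn, card_product, hΘ1, hS]
        · push_cast
          rw [hΩ1, he, kw_mul k p e hcop, kw_prime k p hpp]
        · rintro ⟨a, b⟩ hx ⟨a', b'⟩ hx' heq
          simp only [coe_product, Set.mem_prod, mem_coe] at hx hx'
          have h2 : a ≡ a' [MOD p] := (g1 (a, b)).symm.trans (by rw [heq]; exact g1 (a', b'))
          have h3 : b ≡ b' [MOD e] := (g2 (a, b)).symm.trans (by rw [heq]; exact g2 (a', b'))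
          have h4 := Nat.ModEq.eq_of_lt_of_lt h2 (hΘ2 a hx.1) (hΘ2 a' hx'.1)
          have h5 := Nat.ModEq.eq_of_lt_of_lt h3 (hΩ2 b hx.2) (hΩ2 b' hx'.2)
          rw [h4, h5]
      · intro s hs
        rw [mem_image] at hs
        obtain ⟨x, _, rfl⟩ := hs
        rw [he]
        exact Nat.chineseRemainder_lt_mul hcop x.1 x.2 hpp.pos.ne' (by omega)
      · intro n
        have hsplit : ∀ m : ℤ, (d : ℤ) ∣ m ↔ (p : ℤ) ∣ m ∧ (e : ℤ) ∣ m := by
          intro m
          rw [he]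
          push_cast
          constructor
          · intro h
            exact ⟨(Dvd.intro _ rfl).trans h, (Dvd.intro_left _ rfl).trans h⟩
          · rintro ⟨h2, h3⟩
            exact IsCoprime.mul_dvd (Nat.isCoprime_iff_coprime.2 hcop) h2 h3
        rw [hsplit, hΘ3, hΩ3]
        constructor
        · rintro ⟨⟨a, ha, h2⟩, ⟨b, hb, h3⟩⟩
          refine ⟨g (a, b), mem_image_of_mem _ (mem_product.2 ⟨ha, hb⟩), ?_⟩
          rw [hsplit]
          exact ⟨(hdv p _ _ n (g1 (a, b))).2 h2, (hdv e _ _ n (g2 (a, b))).2 h3⟩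
        · rintro ⟨s, hs, h2⟩
          rw [mem_image] at hs
          obtain ⟨⟨a, b⟩, hx, rfl⟩ := hs
          rw [mem_product] at hx
          rw [hsplit] at h2
          exact ⟨⟨a, hx.1, (hdv p _ _ n (g1 (a, b))).1 h2.1⟩,
            ⟨b, hx.2, (hdv e _ _ n (g2 (a, b))).1 h2.2⟩⟩

end Pool.Agent.W721.KT
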